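import Mathlib

namespace Pool.Agent.Results.MP_2eeab0_an.No

open Polynomial

variable {K : Type} [Field K]

/-- The zero set in the affine plane of a two-variable polynomial `F ∈ K[z][w]`. -/
def zeroSet (F : K[X][X]) : Set (K × K) := {p | (F.eval (C p.2)).eval p.1 = 0}

/-- `(P, Q)` maps an irreducible curve, projecting onto both axes, onto itself. -/
def Intertwined (P Q : K[X]) : Prop :=
  ∃ F : K[X][X], Irreducible F ∧
    (fun p : K × K => (P.eval p.1, Q.eval p.2)) '' zeroSet F = zeroSet F ∧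
    Prod.fst '' zeroSet F = Set.univ ∧ Prod.snd '' zeroSet F = Set.univ

/-- `A⁻¹ ∘ P ∘ A = M` for `A z = α z + β`. -/
def ConjBy (α β : K) (P M : K[X]) : Prop :=
  α ≠ 0 ∧ (C α * X + C β).comp M = P.comp (C α * X + C β)

/-- Affinely conjugate to `z^d` or `± T_d`. -/
def Integrable (P : K[X]) : Prop :=
  ∃ α β : K, ConjBy α β P (X ^ P.natDegree) ∨
    ConjBy α β P (Chebyshev.C K (P.natDegree : ℤ)) ∨
    ConjBy α β P (-Chebyshev.C K (P.natDegree : ℤ))

/-- The map `z ↦ a z + b` lies in `Σ(P)`. -/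
def InSigma (P : K[X]) (a b : K) : Prop :=
  ∃ (α β : K) (M : K[X]), ConjBy α β P M ∧ M.Monic ∧ M.nextCoeff = 0 ∧
    ∃ (μ m : ℕ) (P₀ : K[X]) (ζ : K), 0 < m ∧ M = X ^ μ * P₀.comp (X ^ m) ∧ P₀.eval 0 ≠ 0 ∧
      ((P₀ ≠ 1 ∧ (¬ ∃ (Q : K[X]) (l : ℕ), 2 ≤ l ∧ P₀ = Q.comp (X ^ l)) ∧ ζ ^ m = 1) ∨
        (P₀ = 1 ∧ ∃ n : ℕ, 0 < n ∧ ζ ^ n = 1)) ∧
      ∀ z : K, a * (α * z + β) + b = α * (ζ * z) + β

theorem result (K : Type) [Field K] [IsAlgClosed K] [CharZero K] :
    ∃ (P : K[X]) (a b : K), P.natDegree = 2 ∧ ¬ Integrable P ∧ a ≠ 0 ∧ ¬ InSigma P a b ∧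
      Intertwined (P.comp (C a * X + C b)) P := by
  have dP : (X ^ 2 + 1 : K[X]).natDegree = 2 := by compute_degree!
  refine ⟨X ^ 2 + 1, 2, -3 / 2, dP, ?_, two_ne_zero, ?_, ?_⟩
  · rintro ⟨α, β, h⟩
    rw [dP] at h
    have hC : Chebyshev.C K ((2 : ℕ) : ℤ) = X ^ 2 - 2 := by
      have := Chebyshev.C_two K
      simpa using this
    rw [hC] at h
    have fin : ∀ M : K[X], ConjBy α β (X ^ 2 + 1) M → M.eval 1 = M.eval (-1) →
        β = 0 ∧ α * M.eval 0 = 1 ∧ α * M.eval 1 = α ^ 2 + 1 := by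
      rintro M ⟨hα, hM⟩ he
      have h0 := congrArg (eval 0) hM
      have h1 := congrArg (eval 1) hM
      have h2 := congrArg (eval (-1)) hM
      simp only [eval_comp, eval_add, eval_mul, eval_C, eval_X, eval_pow, eval_one] at h0 h1 h2
      have hb : (4 * α) * β = 0 := by linear_combination h2 - h1 + α * he
      have hβ : β = 0 := (mul_eq_zero.mp hb).resolve_left (mul_ne_zero (by norm_num) hα)
      subst hβ
      exact ⟨rfl, by linear_combination h0, by linear_combination h1⟩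
    rcases h with h | h | h
    · obtain ⟨-, h0, -⟩ := fin _ h (by simp)
      simp at h0
    · obtain ⟨-, h0, h1⟩ := fin _ h (by simp)
      simp only [eval_sub, eval_pow, eval_X, eval_ofNat] at h0 h1
      have : (3 : K) = 0 := by linear_combination (-4) * h1 + (2 * α + 1) * h0
      norm_num at this
    · obtain ⟨-, h0, h1⟩ := fin _ h (by simp)
      simp only [eval_neg, eval_sub, eval_pow, eval_X, eval_ofNat] at h0 h1
      have : (3 : K) = 0 := by linear_combination (-4) * h1 + (1 - 2 * α) * h0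
      norm_num at this
  · rintro ⟨α, β, M, ⟨hα, -⟩, -, -, μ, m, P₀, ζ, hm, -, -, hζ, hz⟩
    have h2 : ζ = 2 := by
      apply mul_left_cancel₀ hα
      linear_combination hz 0 - hz 1
    obtain ⟨n, hn, hζn⟩ : ∃ n : ℕ, 0 < n ∧ ζ ^ n = 1 := by
      rcases hζ with ⟨-, -, h⟩ | ⟨-, h⟩
      · exact ⟨m, hm, h⟩
      · exact h
    rw [h2] at hζn
    have h4 : (2 ^ n : ℕ) = 1 := by exact_mod_cast hζn
    have := Nat.one_lt_two_pow hn.ne'
    omega
  · have hZ : ∀ p : K × K, p ∈ zeroSet (X - C (C 4 * X - C 3) : K[X][X]) ↔ p.2 = 4 * p.1 - 3 := by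
      intro p
      simp only [zeroSet, Set.mem_setOf_eq, eval_sub, eval_X, eval_C, eval_mul]
      exact sub_eq_zero
    refine ⟨X - C (C 4 * X - C 3), irreducible_X_sub_C _, ?_, ?_, ?_⟩
    · ext q
      constructor
      · rintro ⟨p, hp, rfl⟩
        rw [hZ] at hp ⊢
        simp only [eval_comp, eval_add, eval_mul, eval_C, eval_X, eval_pow, eval_one]
        rw [hp]; ring
      · intro hq
        rw [hZ] at hq
        obtain ⟨s, hs⟩ := IsAlgClosed.exists_pow_nat_eq (q.1 - 1) (by norm_num : 0 < 2)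
        refine ⟨((s + 3 / 2) / 2, 2 * s), (hZ _).mpr (by simp only []; ring), ?_⟩
        simp only [eval_comp, eval_add, eval_mul, eval_C, eval_X, eval_pow, eval_one]
        refine Prod.ext ?_ ?_
        · simp only []; linear_combination hs
        · simp only []; linear_combination 4 * hs - hq
    · refine Set.eq_univ_of_forall fun z => ⟨(z, 4 * z - 3), (hZ _).mpr rfl, rfl⟩
    · refine Set.eq_univ_of_forall fun w => ⟨((w + 3) / 4, w), (hZ _).mpr (by simp only []; ring), rfl⟩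

end Pool.Agent.Results.MP_2eeab0_an.No
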